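import Mathlib
import Pool.Prelude.Def_F_c31e40fa
import Pool.Agent.W746.LD.Final
import Pool.Agent.Helper134_U1.Main

set_option autoImplicit false

namespace Pool.Agent.Results.MP_c35c17_an.UniformInstability

/-- The map `z ↦ z ^ n + c`. -/
def f (n : ℕ) (c : ℂ) : ℂ → ℂ := fun z => z ^ n + c

/-- The orbit of the critical point: `z_j` is the `j`-th iterate of `0`. -/
def orbit (n : ℕ) (c : ℂ) (j : ℕ) : ℂ := (f n c)^[j] 0

/-- The derivative `D_j` of the `j`-th iterate of the critical point with respect to the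
parameter. -/
noncomputable def D (n : ℕ) (c : ℂ) (j : ℕ) : ℂ := deriv (fun a => orbit n a j) c

/-- The superattracting parameters: those for which the critical point is periodic. -/
def centres (n : ℕ) : Set ℂ := {c | ∃ m, 1 ≤ m ∧ orbit n c m = 0}

open Metric in
/-- The distance to the superattracting parameters, against the derivative of the critical orbit,
with one constant for all degrees and all orders. -/
theorem result : ∃ C : ℝ, 0 < C ∧ ∀ n : ℕ, 2 ≤ n → ∀ (c : ℂ) (j : ℕ), 1 ≤ j →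
    (c ∈ N62a1eb23.multibrotSet n ∨ (‖c‖ ^ (n - 1) ≤ 4 ∧ ‖orbit n c j‖ ^ (n - 1) ≤ 4)) →
    ∃ c' ∈ centres n, n * ‖D n c j‖ * ‖c' - c‖ ≤
      C * ‖orbit n c j‖ * (1 + max 0 (Real.log (1 / (n * ‖orbit n c j‖ ^ (n - 1))))) := by
  have hA := Pool.Agent.Helper217.Width.one_le_A₀
  refine ⟨2000000 * Pool.Agent.Helper217.Width.A₀, by positivity, ?_⟩
  intro n hn c j hj hc
  have hn0 : (0 : ℝ) < n := by
    have : 0 < n := by omega
    exact_mod_cast this
  have horb : ∀ (a : ℂ) (i : ℕ), orbit n a i = Pool.Agent.H712R2.P n i a := fun a i => rfl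
  have hD : D n c j = deriv (Pool.Agent.H712R2.P n j) c := rfl
  have hzero : (0 : ℂ) ∈ centres n := by
    refine ⟨1, le_rfl, ?_⟩
    rw [horb, Pool.Agent.H712R2.P_one hn]
  have hbound : ‖c‖ ^ (n - 1) ≤ 4 ∧ ‖Pool.Agent.H712R2.P n j c‖ ^ (n - 1) ≤ 4 := by
    rcases hc with hc | hc
    · have h1 := Pool.Agent.W746.LD.orbit_bound hn
        (Pool.Agent.W746.LD.mem_multibrot_orb hn hc)
      constructor
      · have h2 := h1 0
        rw [Pool.Agent.W746.LD.orb_zero] at h2
        linarith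
      · obtain ⟨k, rfl⟩ : ∃ k, j = k + 1 := ⟨j - 1, by omega⟩
        rw [Pool.Agent.W746.LD.P_eq_orb hn]
        have := h1 k
        linarith
    · exact hc
  by_cases hP : Pool.Agent.H712R2.P n j c = 0
  · refine ⟨c, ⟨j, hj, hP⟩, ?_⟩
    rw [horb, hP, sub_self, norm_zero]
    simp
  have hP0 : 0 < ‖Pool.Agent.H712R2.P n j c‖ := norm_pos_iff.mpr hP
  have hΛ : 0 ≤ max 0 (Real.log (1 / (n * ‖orbit n c j‖ ^ (n - 1)))) := le_max_left _ _
  by_cases hD0 : deriv (Pool.Agent.H712R2.P n j) c = 0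
  · refine ⟨0, hzero, ?_⟩
    rw [hD, hD0, norm_zero, mul_zero, zero_mul]
    positivity
  have hD1 : 0 < ‖deriv (Pool.Agent.H712R2.P n j) c‖ := norm_pos_iff.mpr hD0
  rw [hD]
  have hX : 0 < Pool.Agent.Helper217.Width.A₀ * ‖orbit n c j‖ *
      (1 + max 0 (Real.log (1 / (n * ‖orbit n c j‖ ^ (n - 1))))) := by
    have : 0 < ‖orbit n c j‖ := hP0
    positivity
  set X := Pool.Agent.Helper217.Width.A₀ * ‖orbit n c j‖ *
      (1 + max 0 (Real.log (1 / (n * ‖orbit n c j‖ ^ (n - 1))))) with hXdef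
  set R := 2000000 * X / (n * ‖deriv (Pool.Agent.H712R2.P n j) c‖) with hR
  have hR0 : 0 < R := by positivity
  have hRX : n * ‖deriv (Pool.Agent.H712R2.P n j) c‖ * R = 2000000 * X := by
    rw [hR]
    field_simp
  have hnot : ¬ Pool.Agent.Helper134.U1.NoCen n c R := by
    intro hno
    have h1 := Pool.Agent.Helper134.U1.main hn hR0 hno hbound.1 hj hbound.2
    have h2 : 1000000 * Pool.Agent.Helper217.Width.A₀ * ‖Pool.Agent.H712R2.P n j c‖ *
        (1 + Pool.Agent.Helper134.U1.Lam n (Pool.Agent.H712R2.P n j c)) = 1000000 * X := by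
      rw [hXdef, horb, Pool.Agent.Helper134.U1.Lam]
      ring
    rw [h2] at h1
    linarith
  unfold Pool.Agent.Helper134.U1.NoCen at hnot
  push Not at hnot
  obtain ⟨t, ht, m, hm, htm⟩ := hnot
  refine ⟨t, ⟨m, hm, htm⟩, ?_⟩
  rw [mem_ball, dist_eq_norm] at ht
  calc n * ‖deriv (Pool.Agent.H712R2.P n j) c‖ * ‖t - c‖
      ≤ n * ‖deriv (Pool.Agent.H712R2.P n j) c‖ * R := by gcongr
    _ = 2000000 * X := hRX
    _ = _ := by rw [hXdef]; ring

end Pool.Agent.Results.MP_c35c17_an.UniformInstability
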